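import Pool.Agent.Y976.SG.Stm

/-!
# Project SG: the power series of `r t / sqrt (1 - (1 - r²) t²)`
-/

set_option autoImplicit false

namespace Pool.Agent.Y185.SG

open Pool.Agent.Y976.SG

/-- the coefficients of `(1 - x) ^ (-1/2)` -/
noncomputable def cf (n : ℕ) : ℝ := Ring.choose ((1 / 2 : ℝ) + n - 1) n

theorem cf_nonneg (n : ℕ) : 0 ≤ cf n := by
  unfold cf
  rw [← Ring.multichoose_eq]
  have h1 := Ring.factorial_nsmul_multichoose_eq_ascPochhammer (1 / 2 : ℝ) n
  rw [Polynomial.ascPochhammer_smeval_eq_eval, nsmul_eq_mul] at h1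
  have h2 : 0 < (ascPochhammer ℝ n).eval (1 / 2 : ℝ) := ascPochhammer_pos n _ (by norm_num)
  have h3 : (0 : ℝ) < (n.factorial : ℝ) := by exact_mod_cast n.factorial_pos
  rw [← h1] at h2
  exact (pos_of_mul_pos_right h2 h3.le).le

theorem cf_sum (x : ℝ) (hx : |x| < 1) :
    HasSum (fun n => cf n * x ^ n) (1 / (1 - x) ^ (1 / 2 : ℝ)) := by
  have h := (Real.one_div_one_sub_rpow_hasFPowerSeriesOnBall_zero (1 / 2 : ℝ)).hasSum
    (y := x) (by simpa [enorm_eq_nnnorm] using! hx)
  simp only [zero_add, FormalMultilinearSeries.ofScalars_apply_eq, smul_eq_mul] at h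
  exact h

theorem main : S_VR := by
  intro r hr0 hr1
  set y : ℝ := 1 - r ^ 2 with hy
  have hy0 : 0 ≤ y := by nlinarith
  have hy1 : y < 1 := by nlinarith [mul_pos hr0 hr0]
  obtain ⟨a, ha⟩ : ∃ a : ℕ → ℝ, a = fun n => if Odd n then r * cf (n / 2) * y ^ (n / 2) else 0 :=
    ⟨_, rfl⟩
  have ha0 : ∀ n, 0 ≤ a n := by
    intro n
    simp only [ha]
    split_ifs
    · have := cf_nonneg (n / 2)
      positivity
    · exact le_rfl
  have key : ∀ t : ℝ, |t| ≤ 1 → HasSum (fun n => a n * t ^ n) (vr r t) := by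
    intro t ht
    have ht2 : t ^ 2 ≤ 1 := by
      rw [← sq_abs]
      exact pow_le_one₀ (abs_nonneg t) ht
    have hx0 : 0 ≤ y * t ^ 2 := by positivity
    have hx1 : y * t ^ 2 < 1 := by nlinarith [sq_nonneg t]
    have h1 := (cf_sum (y * t ^ 2) (by rw [abs_of_nonneg hx0]; exact hx1)).mul_left (r * t)
    have he : HasSum (fun k => a (2 * k) * t ^ (2 * k)) 0 := by
      have e : (fun k => a (2 * k) * t ^ (2 * k)) = fun _ => 0 := by
        funext k
        simp only [ha]
        rw [if_neg (by simp), zero_mul]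
      rw [e]
      exact hasSum_zero
    have ho : HasSum (fun k => a (2 * k + 1) * t ^ (2 * k + 1)) (vr r t) := by
      have e : (fun k => a (2 * k + 1) * t ^ (2 * k + 1)) =
          fun k => r * t * (cf k * (y * t ^ 2) ^ k) := by
        funext k
        simp only [ha]
        have h2 : (2 * k + 1) / 2 = k := by omega
        rw [if_pos ⟨k, rfl⟩, h2, pow_succ, pow_mul, mul_pow]
        ring
      have e2 : vr r t = r * t * (1 / (1 - y * t ^ 2) ^ (1 / 2 : ℝ)) := by
        unfold vr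
        rw [Real.sqrt_eq_rpow]
        ring
      rw [e, e2]
      exact h1
    have h3 : HasSum (fun n => a n * t ^ n) (0 + vr r t) :=
      HasSum.even_add_odd (f := fun n => a n * t ^ n) he ho
    rw [zero_add] at h3
    exact h3
  refine ⟨a, ha0, ?_, key⟩
  have h1 := key 1 (by simp)
  have h2 : vr r 1 = 1 := by
    unfold vr
    have e : 1 - (1 - r ^ 2) * (1 : ℝ) ^ 2 = r ^ 2 := by ring
    rw [e, Real.sqrt_sq hr0.le, mul_one, div_self hr0.ne']
  rw [h2] at h1
  simpa using h1

end Pool.Agent.Y185.SG
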